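import Pool.Agent.Q219.ZN.Par

/-!
# Zagier's conjecture: functions on the embeddings and radical extensions, definitions
-/

set_option autoImplicit false

namespace Pool.Agent.U725.ZR

open GonP NumberField Pool.Agent.Q219.ZG Pool.Agent.Q219.ZN

/-- Every real function `φ` on the set of the embeddings `σ : F → ℂ` with
`φ (conj σ) = (-1)^(n-1) φ (σ)` is a sum of functions of the restrictions `σ|E` to the subfields `E` in
the set `S`. -/
def Decomposes (n : ℕ) (F : Type) [Field F] [NumberField F] (S : Set (IntermediateField ℚ F)) : Prop :=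
  ∀ φ ∈ Par n F, φ ∈ ⨆ E ∈ S, LinearMap.range (pull (E.val.toRingHom : E →+* F))

/-- The field `F` is generated over its subfield `E` by the elements `a i ≠ 0` whose `m`-th powers are
in `E`, `m ≥ 1`. -/
structure IsRadical {F : Type} [Field F] [NumberField F] (E : IntermediateField ℚ F) (m : ℕ) {r : ℕ}
    (a : Fin r → F) : Prop where
  pos : 1 ≤ m
  ne : ∀ i, a i ≠ 0
  pow_mem : ∀ i, a i ^ m ∈ E
  top : E ⊔ IntermediateField.adjoin ℚ (Set.range a) = ⊤

/-- The simple radical extension `E(b)` of `E`, `b = ∏ a_i ^ (e i)`. -/
def simple {F : Type} [Field F] [NumberField F] (E : IntermediateField ℚ F) {m r : ℕ}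
    (a : Fin r → F) (e : Fin r → Fin m) : IntermediateField ℚ F :=
  E ⊔ IntermediateField.adjoin ℚ {∏ i, a i ^ (e i : ℕ)}

open Classical in
/-- There are rational weights `c σ` of the embeddings `σ : F → ℂ`, not all zero, with
`c (conj σ) = (-1)^(n-1) c σ`, such that for every proper subfield `E` and every embedding `τ : E → ℂ`
the sum of the weights of the embeddings `σ` with `σ|E = τ` is zero. -/
def Weights (n : ℕ) (F : Type) [Field F] [NumberField F] : Prop :=
  ∃ c : (F →+* ℂ) → ℚ, c ≠ 0 ∧ (∀ σ, c (conj σ) = (-1) ^ (n - 1) * c σ) ∧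
    ∀ E : IntermediateField ℚ F, E ≠ ⊤ → ∀ τ : E →+* ℂ,
      ∑ σ with σ.comp (E.val.toRingHom : E →+* F) = τ, c σ = 0

/-- The fields to which the nonvanishing for `n` is reduced. -/
structure RemainingRad (n : ℕ) (F : Type) [Field F] [NumberField F] : Prop extends Remaining n F where
  /-- if `F` is generated over a subfield `E` by radicals, then by one of the products of the given
  radicals -/
  radical : ∀ (E : IntermediateField ℚ F) (m r : ℕ) (a : Fin r → F), IsRadical E m a →
    ∃ e : Fin r → Fin m, simple E a e = ⊤
  /-- there are rational weights `c σ` of the embeddings `σ : F → ℂ`, not all zero, with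
  `c (conj σ) = (-1)^(n-1) c σ`, such that for every proper subfield `E` and every embedding `τ` of `E`
  the sum of the weights of the `σ` with `σ|E = τ` is zero -/
  weights : Weights n F

end Pool.Agent.U725.ZR
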