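import Pool.Agent.U725.ZR.Defs
import Pool.Agent.Q219.ZN.Min

/-!
# Zagier's conjecture: functions on the embeddings and radical extensions
-/

set_option autoImplicit false

namespace Pool.Agent.U725.ZR

open GonP NumberField Pool.Agent.Q219.ZG Pool.Agent.Q219.ZN

section

variable {n : ℕ}

lemma sign_sq (n : ℕ) : ((-1 : ℝ) ^ (n - 1)) * (-1) ^ (n - 1) = 1 := by
  rw [← mul_pow]
  norm_num

/-- the projection to the functions with the parity `(-1)^(n-1)` -/
noncomputable def pr (n : ℕ) (F : Type) [Field F] : ((F →+* ℂ) → ℝ) →ₗ[ℝ] ((F →+* ℂ) → ℝ) where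
  toFun φ σ := (φ σ + (-1) ^ (n - 1) * φ (conj σ)) / 2
  map_add' a b := by
    funext σ
    simp only [Pi.add_apply]
    ring
  map_smul' c a := by
    funext σ
    simp only [Pi.smul_apply, smul_eq_mul, RingHom.id_apply]
    ring

lemma conj_conj' {F : Type} [Field F] (σ : F →+* ℂ) : conj (conj σ) = σ := by
  refine RingHom.ext fun x => ?_
  show (starRingEnd ℂ) ((starRingEnd ℂ) (σ x)) = σ x
  exact Complex.conj_conj _

lemma pr_mem {F : Type} [Field F] (φ : (F →+* ℂ) → ℝ) : pr n F φ ∈ Par n F := by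
  intro σ
  show (φ (conj σ) + (-1) ^ (n - 1) * φ (conj (conj σ))) / 2 =
    (-1) ^ (n - 1) * ((φ σ + (-1) ^ (n - 1) * φ (conj σ)) / 2)
  rw [conj_conj']
  have h := sign_sq n
  have h2 : (-1 : ℝ) ^ (n - 1) * ((φ σ + (-1) ^ (n - 1) * φ (conj σ)) / 2) =
      ((-1) ^ (n - 1) * φ σ + ((-1) ^ (n - 1) * (-1) ^ (n - 1)) * φ (conj σ)) / 2 := by ring
  rw [h2, h]
  ring

lemma pr_eq {F : Type} [Field F] {φ : (F →+* ℂ) → ℝ} (hφ : φ ∈ Par n F) : pr n F φ = φ := by
  funext σ
  show (φ σ + (-1) ^ (n - 1) * φ (conj σ)) / 2 = φ σ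
  rw [hφ σ, ← mul_assoc, sign_sq n]
  ring

lemma pr_pull {F L : Type} [Field F] [Field L] (f : F →+* L) (φ : (F →+* ℂ) → ℝ) :
    pr n L (pull f φ) = pull f (pr n F φ) := rfl

/-- the criterion -/
theorem of_decomposes (hn : 3 ≤ n) {F : Type} [Field F] [NumberField F]
    {S : Set (IntermediateField ℚ F)} (hS : Decomposes n F S)
    (h : ∀ E ∈ S, Nonvanishing n E) : Nonvanishing n F := by
  rw [nonvanishing_iff (by omega)]
  intro φ hφ
  have h1 : (⨆ E ∈ S, LinearMap.range (pull (E.val.toRingHom : E →+* F))) ≤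
      (Val n F).comap (pr n F) := by
    refine iSup₂_le fun E hE => ?_
    rintro _ ⟨χ, rfl⟩
    rw [Submodule.mem_comap, pr_pull]
    exact pull_Val hn _ ((nonvanishing_iff (by omega) _).1 (h E hE) (pr_mem χ))
  have h2 := h1 (hS φ hφ)
  rwa [Submodule.mem_comap, pr_eq hφ] at h2

lemma geom {x : ℂ} {m : ℕ} (hx : x ^ m = 1) :
    ∑ k : Fin m, x ^ (k : ℕ) = if x = 1 then (m : ℂ) else 0 := by
  rw [Fin.sum_univ_eq_sum_range (fun k => x ^ k) m]
  split_ifs with h
  · subst h
    simp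
  · have h1 := mul_neg_geom_sum x m
    rw [hx, sub_self] at h1
    exact (mul_eq_zero.1 h1).resolve_left (sub_ne_zero.2 (Ne.symm h))

variable {F : Type} [Field F] [NumberField F] {E : IntermediateField ℚ F} {m r : ℕ} {a : Fin r → F}

lemma sum_rad (ha : IsRadical E m a) {σ σ0 : F →+* ℂ} (hE : ∀ x ∈ E, σ x = σ0 x) :
    ∑ e : Fin r → Fin m, σ (∏ i, a i ^ (e i : ℕ)) / σ0 (∏ i, a i ^ (e i : ℕ)) =
      if ∀ i, σ (a i) = σ0 (a i) then (m : ℂ) ^ r else 0 := by
  have h0 : ∀ i, σ0 (a i) ≠ 0 := fun i => (map_ne_zero σ0).2 (ha.ne i)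
  have h1 : ∀ e : Fin r → Fin m, σ (∏ i, a i ^ (e i : ℕ)) / σ0 (∏ i, a i ^ (e i : ℕ)) =
      ∏ i, (σ (a i) / σ0 (a i)) ^ (e i : ℕ) := by
    intro e
    rw [map_prod, map_prod, ← Finset.prod_div_distrib]
    refine Finset.prod_congr rfl fun i _ => ?_
    rw [map_pow, map_pow, div_pow]
  have h2 : ∀ i, (σ (a i) / σ0 (a i)) ^ m = 1 := by
    intro i
    rw [div_pow, ← map_pow, ← map_pow, hE _ (ha.pow_mem i)]
    exact div_self ((map_ne_zero σ0).2 (pow_ne_zero _ (ha.ne i)))
  have h3 := Finset.prod_univ_sum (fun _ : Fin r => (Finset.univ : Finset (Fin m)))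
    (fun i k => (σ (a i) / σ0 (a i)) ^ (k : ℕ))
  rw [Fintype.piFinset_univ] at h3
  rw [Finset.sum_congr rfl fun e _ => h1 e, ← h3, Finset.prod_congr rfl fun i _ => geom (h2 i)]
  split_ifs with h
  · rw [Finset.prod_congr rfl fun i _ => if_pos ((div_eq_one_iff_eq (h0 i)).2 (h i))]
    rw [Finset.prod_const, Finset.card_univ, Fintype.card_fin]
  · push Not at h
    obtain ⟨i, hi⟩ := h
    exact Finset.prod_eq_zero (Finset.mem_univ i)
      (if_neg fun h4 => hi ((div_eq_one_iff_eq (h0 i)).1 h4))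

lemma eq_of_gen (ha : IsRadical E m a) {σ σ0 : F →+* ℂ} (hE : ∀ x ∈ E, σ x = σ0 x)
    (h : ∀ i, σ (a i) = σ0 (a i)) : σ = σ0 := by
  let L : IntermediateField ℚ F := (RingHom.eqLocusField σ σ0).toIntermediateField fun q => by
    show σ (algebraMap ℚ F q) = σ0 (algebraMap ℚ F q)
    exact RingHom.congr_fun (Subsingleton.elim (σ.comp (algebraMap ℚ F)) (σ0.comp (algebraMap ℚ F))) q
  have h1 : (⊤ : IntermediateField ℚ F) ≤ L := by
    rw [← ha.top]
    refine sup_le (fun x hx => hE x hx) ?_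
    rw [IntermediateField.adjoin_le_iff]
    rintro _ ⟨i, rfl⟩
    exact h i
  exact RingHom.ext fun x => h1 (IntermediateField.mem_top (x := x))

open Classical in
/-- the function on the embeddings of `E(b)` -/
noncomputable def psi (E : IntermediateField ℚ F) (a : Fin r → F) (e : Fin r → Fin m)
    (σ0 : F →+* ℂ) : ((simple E a e) →+* ℂ) → ℝ := fun τ =>
  if ∀ (x : F) (hx : x ∈ E), τ ⟨x, (le_sup_left : E ≤ simple E a e) hx⟩ = σ0 x then
    (τ ⟨∏ i, a i ^ (e i : ℕ), (le_sup_right : _ ≤ simple E a e)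
      (IntermediateField.subset_adjoin ℚ _ rfl)⟩ / σ0 (∏ i, a i ^ (e i : ℕ))).re
  else 0

open Classical in
lemma pull_psi (e : Fin r → Fin m) (σ0 σ : F →+* ℂ) :
    pull ((simple E a e).val.toRingHom) (psi E a e σ0) σ =
      if ∀ x ∈ E, σ x = σ0 x then (σ (∏ i, a i ^ (e i : ℕ)) / σ0 (∏ i, a i ^ (e i : ℕ))).re
      else 0 := rfl

open Classical in
lemma indicator (ha : IsRadical E m a) (σ0 : F →+* ℂ) :
    (Pi.single σ0 (1 : ℝ) : (F →+* ℂ) → ℝ) =
      ((m : ℝ) ^ r)⁻¹ • ∑ e : Fin r → Fin m, pull ((simple E a e).val.toRingHom) (psi E a e σ0) := by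
  have hm : ((m : ℝ) ^ r) ≠ 0 := by
    have h1 := ha.pos
    have h2 : (0 : ℝ) < m := by exact_mod_cast h1
    positivity
  funext σ
  rw [Pi.smul_apply, Finset.sum_apply, smul_eq_mul]
  simp only [pull_psi]
  by_cases hE : ∀ x ∈ E, σ x = σ0 x
  · simp only [if_pos hE]
    rw [← Complex.re_sum, sum_rad ha hE]
    by_cases h : ∀ i, σ (a i) = σ0 (a i)
    · rw [if_pos h, eq_of_gen ha hE h, Pi.single_eq_same]
      have h3 : ((m : ℂ) ^ r).re = (m : ℝ) ^ r := by
        have h4 : ((m : ℂ) ^ r) = (((m : ℝ) ^ r : ℝ) : ℂ) := by push_cast; rfl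
        rw [h4, Complex.ofReal_re]
      rw [h3, inv_mul_cancel₀ hm]
    · rw [if_neg h, Complex.zero_re, mul_zero]
      refine Pi.single_eq_of_ne ?_ _
      rintro rfl
      exact h fun _ => rfl
  · simp only [if_neg hE]
    rw [Finset.sum_const_zero, mul_zero]
    refine Pi.single_eq_of_ne ?_ _
    rintro rfl
    exact hE fun _ _ => rfl

/-- **Radical extensions.** -/
theorem decomposes_rad (n : ℕ) (ha : IsRadical E m a) :
    Decomposes n F (Set.range fun e : Fin r → Fin m => simple E a e) := by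
  classical
  intro φ _
  have h1 : φ = ∑ σ0, φ σ0 • (Pi.single σ0 (1 : ℝ) : (F →+* ℂ) → ℝ) := by
    funext σ
    rw [Finset.sum_apply, Finset.sum_eq_single σ]
    · rw [Pi.smul_apply, Pi.single_eq_same, smul_eq_mul, mul_one]
    · intro τ _ hτ
      rw [Pi.smul_apply, Pi.single_eq_of_ne (Ne.symm hτ), smul_zero]
    · intro h
      exact absurd (Finset.mem_univ σ) h
  rw [h1]
  refine Submodule.sum_mem _ fun σ0 _ => Submodule.smul_mem _ _ ?_
  rw [indicator ha σ0]
  refine Submodule.smul_mem _ _ (Submodule.sum_mem _ fun e _ => ?_)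
  exact Submodule.mem_iSup_of_mem _ (Submodule.mem_iSup_of_mem ⟨e, rfl⟩ ⟨_, rfl⟩)

theorem of_radical (hn : 3 ≤ n) (ha : IsRadical E m a)
    (h : ∀ e : Fin r → Fin m, Nonvanishing n (simple E a e)) : Nonvanishing n F := by
  refine of_decomposes hn (decomposes_rad n ha) ?_
  rintro _ ⟨e, rfl⟩
  exact h e

open Classical in
/-- duality: rational weights -/
theorem weights_of_not (hS : ¬ Decomposes n F {E | E ≠ ⊤}) : Weights n F := by
  unfold Decomposes at hS
  push Not at hS
  obtain ⟨φ, hφ, hnot⟩ := hS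
  obtain ⟨f, hf, hle⟩ := Submodule.exists_le_ker_of_notMem hnot
  -- the real weights
  obtain ⟨c, hc⟩ : ∃ c : (F →+* ℂ) → ℝ, c = fun σ => f (Pi.single σ 1) := ⟨_, rfl⟩
  have hfc : ∀ ψ : (F →+* ℂ) → ℝ, f ψ = ∑ σ, ψ σ * c σ := by
    intro ψ
    have h1 : ψ = ∑ σ0, ψ σ0 • (Pi.single σ0 (1 : ℝ) : (F →+* ℂ) → ℝ) := by
      funext σ
      rw [Finset.sum_apply, Finset.sum_eq_single σ]
      · rw [Pi.smul_apply, Pi.single_eq_same, smul_eq_mul, mul_one]
      · intro τ _ hτ
        rw [Pi.smul_apply, Pi.single_eq_of_ne (Ne.symm hτ), smul_zero]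
      · intro h
        exact absurd (Finset.mem_univ σ) h
    conv_lhs => rw [h1]
    rw [map_sum]
    refine Finset.sum_congr rfl fun σ _ => ?_
    rw [map_smul, smul_eq_mul, hc]
  have hfib : ∀ E : IntermediateField ℚ F, E ≠ ⊤ → ∀ τ : E →+* ℂ,
      ∑ σ with σ.comp (E.val.toRingHom : E →+* F) = τ, c σ = 0 := by
    intro E hE τ
    have h1 : pull (E.val.toRingHom : E →+* F) (Pi.single τ (1 : ℝ)) ∈
        ⨆ E ∈ {E : IntermediateField ℚ F | E ≠ ⊤},
          LinearMap.range (pull (E.val.toRingHom : E →+* F)) :=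
      Submodule.mem_iSup_of_mem E (Submodule.mem_iSup_of_mem hE ⟨_, rfl⟩)
    have h2 : f (pull (E.val.toRingHom : E →+* F) (Pi.single τ (1 : ℝ))) = 0 := hle h1
    rw [hfc] at h2
    rw [Finset.sum_filter]
    refine Eq.trans (Finset.sum_congr rfl fun σ _ => ?_) h2
    have h3 : pull (E.val.toRingHom : E →+* F) (Pi.single τ (1 : ℝ)) σ =
        (Pi.single τ (1 : ℝ) : (E →+* ℂ) → ℝ) (σ.comp (E.val.toRingHom : E →+* F)) := rfl
    rw [h3, Pi.single_apply]
    split_ifs
    · rw [one_mul]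
    · rw [zero_mul]
  -- the conjugate weights
  have hbij : ∀ g : (F →+* ℂ) → ℝ, ∑ σ, g (conj σ) = ∑ σ, g σ := fun g =>
    Fintype.sum_bijective conj
      ⟨fun a b hab => by rw [← conj_conj' a, hab, conj_conj'], fun b => ⟨conj b, conj_conj' b⟩⟩ _ _
      fun _ => rfl
  have hfib2 : ∀ E : IntermediateField ℚ F, E ≠ ⊤ → ∀ τ : E →+* ℂ,
      ∑ σ with σ.comp (E.val.toRingHom : E →+* F) = τ, c (conj σ) = 0 := by
    intro E hE τ
    have h1 := hfib E hE (conj τ)
    rw [Finset.sum_filter] at h1 ⊢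
    rw [← hbij]
    refine Eq.trans (Finset.sum_congr rfl fun σ _ => ?_) h1
    have h2 : (conj σ).comp (E.val.toRingHom : E →+* F) = conj (σ.comp (E.val.toRingHom)) := rfl
    have h3 : (conj (σ.comp (E.val.toRingHom : E →+* F)) = τ) ↔
        σ.comp (E.val.toRingHom : E →+* F) = conj τ := by
      constructor
      · intro h
        rw [← h, conj_conj']
      · intro h
        rw [h, conj_conj']
    rw [h2, conj_conj']
    simp only [h3]
  obtain ⟨d, hd⟩ : ∃ d : (F →+* ℂ) → ℝ, d = fun σ => c σ + (-1) ^ (n - 1) * c (conj σ) := ⟨_, rfl⟩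
  have hdpar : ∀ σ, d (conj σ) = (-1) ^ (n - 1) * d σ := by
    intro σ
    have h1 := sign_sq n
    rw [hd]
    simp only [conj_conj']
    rw [mul_add, ← mul_assoc, h1]
    ring
  have hdfib : ∀ E : IntermediateField ℚ F, E ≠ ⊤ → ∀ τ : E →+* ℂ,
      ∑ σ with σ.comp (E.val.toRingHom : E →+* F) = τ, d σ = 0 := by
    intro E hE τ
    rw [hd]
    simp only [Finset.sum_add_distrib, ← Finset.mul_sum]
    rw [hfib E hE τ, hfib2 E hE τ, mul_zero, add_zero]
  have hd0 : d ≠ 0 := by
    intro h0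
    refine hf ?_
    have h1 : ∑ σ, φ σ * d σ = 2 * ∑ σ, φ σ * c σ := by
      have h2 : ∑ σ, φ σ * ((-1) ^ (n - 1) * c (conj σ)) = ∑ σ, φ σ * c σ := by
        rw [← hbij (fun σ => φ σ * c σ)]
        refine Finset.sum_congr rfl fun σ _ => ?_
        rw [hφ σ]
        ring
      rw [hd]
      simp only [mul_add, Finset.sum_add_distrib]
      rw [h2, two_mul]
    rw [hfc]
    rw [h0] at h1
    simp only [Pi.zero_apply, mul_zero, Finset.sum_const_zero] at h1
    linarith
  -- rational weights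
  obtain ⟨σ1, hσ1⟩ : ∃ σ, d σ ≠ 0 := by
    by_contra h
    push Not at h
    exact hd0 (funext h)
  obtain ⟨e, he⟩ : ∃ e : Module.Dual ℚ ℝ, e (d σ1) ≠ 0 := by
    by_contra hcon
    exact hσ1 ((Module.forall_dual_apply_eq_zero_iff ℚ (d σ1)).1 fun e => by
      by_contra h
      exact hcon ⟨e, h⟩)
  refine ⟨fun σ => e (d σ), fun h => he (congrFun h σ1), fun σ => ?_, fun E hE τ => ?_⟩
  · have h1 : d (conj σ) = ((-1 : ℚ) ^ (n - 1)) • d σ := by
      rw [hdpar, Rat.smul_def]
      push_cast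
      rfl
    simp only [h1, map_smul, smul_eq_mul]
  · rw [← map_sum, hdfib E hE τ, map_zero]

/-- a field of minimal degree -/
theorem remaining_rad (hn : 3 ≤ n) (h : ∀ E : IntermediateField ℚ F, E ≠ ⊤ → Nonvanishing n E)
    (hF : ¬ Nonvanishing n F) : RemainingRad n F where
  toRemaining := remaining_of_not hn h hF
  radical := by
    intro E m r a ha
    by_contra hcon
    push Not at hcon
    exact hF (of_radical hn ha fun e => h _ (hcon e))
  weights := weights_of_not fun hS => hF (of_decomposes hn hS fun E hE => h E hE)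

/-- induction on the degree, in a class of fields which is closed under subfields -/
theorem induct_rad (hn : 3 ≤ n) (P : ∀ (F : Type) [Field F] [NumberField F], Prop)
    (hP : ∀ (F : Type) [Field F] [NumberField F], P F → ∀ E : IntermediateField ℚ F, P E)
    (h : ∀ (F : Type) [Field F] [NumberField F], P F → RemainingRad n F → Nonvanishing n F) :
    ∀ (F : Type) [Field F] [NumberField F], P F → Nonvanishing n F := by
  suffices H : ∀ (d : ℕ) (F : Type) [Field F] [NumberField F], Module.finrank ℚ F ≤ d → P F →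
      Nonvanishing n F from fun F _ _ hF => H _ F le_rfl hF
  intro d
  induction d with
  | zero =>
    intro F _ _ hd
    have : 0 < Module.finrank ℚ F := Module.finrank_pos
    omega
  | succ d ih =>
    intro F _ _ hd hF
    have h1 : ∀ E : IntermediateField ℚ F, E ≠ ⊤ → Nonvanishing n E := by
      intro E hE
      refine ih E ?_ (hP F hF E)
      have h2 : Module.finrank ℚ E < Module.finrank ℚ F := by
        refine Submodule.finrank_lt (s := Subalgebra.toSubmodule E.toSubalgebra) fun htop => hE ?_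
        rw [eq_top_iff]
        intro x _
        have : x ∈ Subalgebra.toSubmodule E.toSubalgebra := by
          rw [htop]
          exact Submodule.mem_top
        exact this
      omega
    by_contra hcon
    exact hcon (h F hF (remaining_rad hn h1 hcon))

end

end Pool.Agent.U725.ZR
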